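import Mathlib
import Pool.Agent.Helper93.Bq.Pat
import Pool.Agent.Helper93.X49.Rat

/-!
# Many primes `l ≡ 1 mod 8` modulo which a given cubic polynomial is irreducible and which are squares
# modulo given primes

Helper93, project Pf.
-/

set_option autoImplicit false
set_option linter.unusedSectionVars false
set_option linter.style.haveILetI false

open NumberField IsDedekindDomain Polynomial

namespace Pool.Agent.Helper93.Pf

open Pool.Agent.Helper93.X49 (absNorm_eq mem_iff)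

section cyc

variable {L : Type} [Field L] [NumberField L]

/-- An automorphism which permutes the three roots cyclically. -/
theorem cycle [Normal ℚ L] {t1 t2 t3 : L} (h12 : t1 ≠ t2) (h13 : t1 ≠ t3) (h23 : t2 ≠ t3)
    (hroot : ∀ (g : L ≃ₐ[ℚ] L) (t : L), (t = t1 ∨ t = t2 ∨ t = t3) →
      (g t = t1 ∨ g t = t2 ∨ g t = t3))
    (e12 : minpoly ℚ t1 = minpoly ℚ t2) (e13 : minpoly ℚ t1 = minpoly ℚ t3) :
    ∃ g : L ≃ₐ[ℚ] L, (g t1 = t2 ∧ g t2 = t3 ∧ g t3 = t1) ∨ (g t1 = t3 ∧ g t3 = t2 ∧ g t2 = t1) := by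
  obtain ⟨g, hg⟩ : ∃ g : L ≃ₐ[ℚ] L, g t1 = t2 := by
    obtain ⟨g, hg⟩ := (Normal.minpoly_eq_iff_mem_orbit L).1 e12.symm
    exact ⟨g, hg⟩
  obtain ⟨k, hk⟩ : ∃ g : L ≃ₐ[ℚ] L, g t1 = t3 := by
    obtain ⟨g, hg⟩ := (Normal.minpoly_eq_iff_mem_orbit L).1 e13.symm
    exact ⟨g, hg⟩
  have gi : Function.Injective g := g.injective
  have ki : Function.Injective k := k.injective
  rcases hroot g t2 (by tauto) with h | h | h
  · -- `g` is a transposition
    have h3 : g t3 = t3 := by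
      rcases hroot g t3 (by tauto) with h' | h' | h'
      · exact absurd (gi (h'.trans h.symm)) h23.symm
      · exact absurd (gi (h'.trans hg.symm)) h13.symm
      · exact h'
    rcases hroot k t3 (by tauto) with h' | h' | h'
    · have h2 : k t2 = t2 := by
        rcases hroot k t2 (by tauto) with h'' | h'' | h''
        · exact absurd (ki (h''.trans h'.symm)) h23
        · exact h''
        · exact absurd (ki (h''.trans hk.symm)) h12.symm
      refine ⟨g * k, Or.inr ⟨?_, ?_, ?_⟩⟩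
      · rw [AlgEquiv.mul_apply, hk, h3]
      · rw [AlgEquiv.mul_apply, h', hg]
      · rw [AlgEquiv.mul_apply, h2, h]
    · have h2 : k t2 = t1 := by
        rcases hroot k t2 (by tauto) with h'' | h'' | h''
        · exact h''
        · exact absurd (ki (h''.trans h'.symm)) h23
        · exact absurd (ki (h''.trans hk.symm)) h12.symm
      exact ⟨k, Or.inr ⟨hk, h', h2⟩⟩
    · exact absurd (ki (h'.trans hk.symm)) h13.symm
  · exact absurd (gi (h.trans hg.symm)) h12.symm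
  · have h3 : g t3 = t1 := by
      rcases hroot g t3 (by tauto) with h' | h' | h'
      · exact h'
      · exact absurd (gi (h'.trans hg.symm)) h13.symm
      · exact absurd (gi (h'.trans h.symm)) h23.symm
    exact ⟨g, Or.inl ⟨hg, h, h3⟩⟩

/-- The fourth power of the automorphism. -/
theorem cycle4 [Normal ℚ L] {t1 t2 t3 : L} (h12 : t1 ≠ t2) (h13 : t1 ≠ t3) (h23 : t2 ≠ t3)
    (hroot : ∀ (g : L ≃ₐ[ℚ] L) (t : L), (t = t1 ∨ t = t2 ∨ t = t3) →
      (g t = t1 ∨ g t = t2 ∨ g t = t3))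
    (e12 : minpoly ℚ t1 = minpoly ℚ t2) (e13 : minpoly ℚ t1 = minpoly ℚ t3) :
    ∃ Φ : L ≃ₐ[ℚ] L, (∀ t, (t = t1 ∨ t = t2 ∨ t = t3) → (Φ t = t1 ∨ Φ t = t2 ∨ Φ t = t3) ∧ Φ t ≠ t) ∧
      ∀ (s : L) (d : ℤ), s ^ 2 = (d : L) → Φ s = s := by
  obtain ⟨g, hg⟩ := cycle h12 h13 h23 hroot e12 e13
  refine ⟨g * (g * (g * g)), ?_, ?_⟩
  · intro t ht
    simp only [AlgEquiv.mul_apply]
    rcases hg with ⟨k1, k2, k3⟩ | ⟨k1, k2, k3⟩
    · rcases ht with rfl | rfl | rfl
      · rw [k1, k2, k3, k1]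
        exact ⟨by tauto, h12.symm⟩
      · rw [k2, k3, k1, k2]
        exact ⟨by tauto, h23.symm⟩
      · rw [k3, k1, k2, k3]
        exact ⟨by tauto, h13⟩
    · rcases ht with rfl | rfl | rfl
      · rw [k1, k2, k3, k1]
        exact ⟨by tauto, h13.symm⟩
      · rw [k3, k1, k2, k3]
        exact ⟨by tauto, h12⟩
      · rw [k2, k3, k1, k2]
        exact ⟨by tauto, h23⟩
  · intro s d hs
    have h1 : g s = s ∨ g s = -s := by
      have h2 : (g s) ^ 2 = s ^ 2 := by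
        rw [← map_pow, hs, map_intCast]
      exact sq_eq_sq_iff_eq_or_eq_neg.1 h2
    simp only [AlgEquiv.mul_apply]
    rcases h1 with h1 | h1
    · rw [h1, h1, h1, h1]
    · rw [h1, map_neg, h1, neg_neg, h1, map_neg, h1, neg_neg]

/-- Euler's criterion. -/
theorem euler {l : ℕ} [Fact l.Prime] (hl2 : l ≠ 2) (P : HeightOneSpectrum (𝓞 L))
    (hP : ∀ n : ℤ, ((n : ℤ) : 𝓞 L) ∈ P.asIdeal ↔ (l : ℤ) ∣ n) {s : 𝓞 L} {d : ℤ}
    (hs : s ^ 2 = (d : 𝓞 L)) (hd : ¬ (l : ℤ) ∣ d) (h : s - s ^ l ∈ P.asIdeal) :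
    IsSquare ((d : ℤ) : ZMod l) := by
  have hodd : Odd l := (Fact.out : l.Prime).odd_of_ne_two hl2
  have h0 : ((d : ℤ) : ZMod l) ≠ 0 := by
    rwa [Ne, ZMod.intCast_zmod_eq_zero_iff_dvd]
  rw [ZMod.euler_criterion l h0]
  obtain ⟨k, hk⟩ := hodd
  have hk2 : l / 2 = k := by omega
  have e1 : s - s ^ l = s * ((1 - d ^ k : ℤ) : 𝓞 L) := by
    push_cast
    rw [← hs, hk]
    ring
  rw [e1] at h
  rcases P.isPrime.mem_or_mem h with h1 | h1
  · exfalso
    apply hd
    rw [← hP, ← hs]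
    exact Ideal.pow_mem_of_mem _ h1 2 (by norm_num)
  · rw [hP, ← ZMod.intCast_zmod_eq_zero_iff_dvd] at h1
    push_cast at h1
    rw [hk2]
    linear_combination -h1

end cyc

/-- the polynomial whose splitting field we use -/
noncomputable def gpol (a b : ℤ) (S : Finset ℕ) : ℚ[X] :=
  (X ^ 3 + C (a : ℚ) * X + C (b : ℚ)) * ∏ d ∈ insert (-1 : ℤ) (insert (2 : ℤ) (S.image fun q : ℕ => (q : ℤ))),
    (X ^ 2 - C (d : ℚ))

theorem gpol_ne (a b : ℤ) (S : Finset ℕ) : gpol a b S ≠ 0 := by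
  unfold gpol
  refine mul_ne_zero ?_ ?_
  · have : (X ^ 3 + C (a : ℚ) * X + C (b : ℚ) : ℚ[X]).Monic := by monicity!
    exact this.ne_zero
  · rw [Finset.prod_ne_zero_iff]
    intro d _
    exact (monic_X_pow_sub_C (d : ℚ) two_ne_zero).ne_zero

noncomputable instance (a b : ℤ) (S : Finset ℕ) : NumberField (gpol a b S).SplittingField :=
  NumberField.of_module_finite ℚ _

theorem int_of_sq {F : Type} [Field F] [NumberField F] {x : F} {u : ℤ} (h : x ^ 2 = (u : F)) :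
    ∃ y : 𝓞 F, (y : F) = x ∧ y ^ 2 = (u : 𝓞 F) := by
  have hint : IsIntegral ℤ x := by
    have h3 : IsIntegral ℤ (x ^ 2) := by
      rw [h]
      have h4 := isIntegral_algebraMap (R := ℤ) (A := F) (x := u)
      simpa using h4
    exact h3.of_pow (by norm_num)
  obtain ⟨y, hy⟩ : ∃ y : 𝓞 F, (y : F) = x := ⟨⟨x, hint⟩, rfl⟩
  refine ⟨y, hy, ?_⟩
  apply RingOfIntegers.ext
  have e : ((y ^ 2 : 𝓞 F) : F) = (y : F) ^ 2 := rfl
  rw [e, hy, h]
  exact (map_intCast (algebraMap (𝓞 F) F) u).symm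

theorem normal_alg {E : Type} [Field E] [CharZero E] (A : Algebra ℚ E) (h : @Normal ℚ E _ _ A) :
    @Normal ℚ E _ _ DivisionRing.toRatAlgebra := by
  have e : A = DivisionRing.toRatAlgebra := Subsingleton.elim _ _
  subst e
  exact h

theorem normal_gpol (a b : ℤ) (S : Finset ℕ) :
    @Normal ℚ (gpol a b S).SplittingField _ _ DivisionRing.toRatAlgebra :=
  normal_alg _ (@Normal.of_isSplittingField ℚ _ _ _ _ (gpol a b S)
    (Polynomial.IsSplittingField.splittingField (gpol a b S)))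

/-- Square roots and the three roots in the splitting field. -/
theorem roots (a b : ℤ) (S : Finset ℕ) :
    (∀ d ∈ insert (-1 : ℤ) (insert (2 : ℤ) (S.image fun q : ℕ => (q : ℤ))),
      ∃ s : (gpol a b S).SplittingField, s ^ 2 = (d : (gpol a b S).SplittingField)) ∧
    ∃ t1 t2 t3 : (gpol a b S).SplittingField,
      t1 + t2 + t3 = 0 ∧ t1 * t2 + t1 * t3 + t2 * t3 = (a : (gpol a b S).SplittingField) ∧
      t1 * t2 * t3 = -(b : (gpol a b S).SplittingField) := by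
  set F := (gpol a b S).SplittingField with hF
  have h1 : ((gpol a b S).map (algebraMap ℚ F)).Splits := SplittingField.splits (gpol a b S)
  have hne : (gpol a b S).map (algebraMap ℚ F) ≠ 0 :=
    (Polynomial.map_ne_zero_iff (algebraMap ℚ F).injective).2 (gpol_ne a b S)
  constructor
  · intro d hd
    have h2 : ((X ^ 2 - C (d : ℚ)).map (algebraMap ℚ F)).Splits := by
      apply Splits.of_dvd h1 hne
      exact Polynomial.map_dvd _ ((Finset.dvd_prod_of_mem _ hd).mul_left _)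
    obtain ⟨x, hx⟩ := h2.exists_eval_eq_zero (by
      rw [Polynomial.degree_map, degree_X_pow_sub_C (by norm_num)]
      norm_num)
    refine ⟨x, ?_⟩
    rw [Polynomial.eval_map, Polynomial.eval₂_sub, Polynomial.eval₂_pow, Polynomial.eval₂_X,
      Polynomial.eval₂_C, sub_eq_zero, map_intCast] at hx
    exact hx
  · let P : Cubic ℚ := ⟨1, 0, a, b⟩
    have hP : P.toPoly = X ^ 3 + C (a : ℚ) * X + C (b : ℚ) := by
      simp [P, Cubic.toPoly]
    have h2 : (P.toPoly.map (algebraMap ℚ F)).Splits := by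
      apply Splits.of_dvd h1 hne
      rw [hP]
      exact Polynomial.map_dvd _ (dvd_mul_right _ _)
    obtain ⟨x, y, z, h3⟩ := (Cubic.splits_iff_roots_eq_three (P := P) (one_ne_zero)).1 h2
    refine ⟨x, y, z, ?_, ?_, ?_⟩
    · have h4 := Cubic.b_eq_three_roots (P := P) one_ne_zero h3
      simp only [P, map_zero, map_one, one_mul] at h4
      linear_combination h4
    · have h4 := Cubic.c_eq_three_roots (P := P) one_ne_zero h3
      simp only [P, map_one, one_mul, map_intCast] at h4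
      linear_combination -h4
    · have h4 := Cubic.d_eq_three_roots (P := P) one_ne_zero h3
      simp only [P, map_one, one_mul, map_intCast] at h4
      linear_combination h4

open Filter in
open Rat.HeightOneSpectrum in
/-- **Many primes**, in a field containing the roots. -/
theorem primesF (F : Type) [Field F] [NumberField F] [Normal ℚ F] {a b : ℤ}
    (hirr : Irreducible (X ^ 3 + C (a : ℚ) * X + C (b : ℚ) : ℚ[X]))
    (hdisc : 4 * a ^ 3 + 27 * b ^ 2 ≠ 0) {S : Finset ℕ} (hS : ∀ q ∈ S, q.Prime ∧ q % 4 = 1)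
    (hsq : ∀ d ∈ insert (-1 : ℤ) (insert (2 : ℤ) (S.image fun q : ℕ => (q : ℤ))),
      ∃ s : F, s ^ 2 = (d : F)) {t1 t2 t3 : F} (k1 : t1 + t2 + t3 = 0)
    (k2 : t1 * t2 + t1 * t3 + t2 * t3 = (a : F)) (k3 : t1 * t2 * t3 = -(b : F)) :
    ∃ c : ℝ, 0 < c ∧ ∀ᶠ X : ℕ in atTop, c * (Nat.primeCounting X : ℝ) ≤
      (Set.ncard {l : ℕ | (l.Prime ∧ l % 8 = 1 ∧ (∀ z : ℤ, ¬ (l : ℤ) ∣ z ^ 3 + a * z + b) ∧
        ∀ q ∈ S, IsSquare (l : ZMod q)) ∧ l ≤ X} : ℝ) := by
  classical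
  -- the roots
  have hfac : ∀ t : F, (t - t1) * (t - t2) * (t - t3) = t ^ 3 + (a : F) * t + (b : F) := by
    intro t
    linear_combination -(t ^ 2) * k1 + t * k2 - k3
  have hroot : ∀ t : F, (t = t1 ∨ t = t2 ∨ t = t3) ↔ t ^ 3 + (a : F) * t + (b : F) = 0 := by
    intro t
    rw [← hfac, mul_eq_zero, mul_eq_zero, sub_eq_zero, sub_eq_zero, sub_eq_zero, or_assoc]
  have hd : ((t1 - t2) * (t1 - t3) * (t2 - t3)) ^ 2 = -((4 * a ^ 3 + 27 * b ^ 2 : ℤ) : F) := by
    have e3 : t3 = -t1 - t2 := by linear_combination k1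
    subst e3
    have ea : (a : F) = t1 * t2 + t1 * (-t1 - t2) + t2 * (-t1 - t2) := k2.symm
    have eb : (b : F) = -(t1 * t2 * (-t1 - t2)) := by linear_combination k3
    push_cast
    rw [ea, eb]
    ring
  have hd0 : (t1 - t2) * (t1 - t3) * (t2 - t3) ≠ 0 := by
    intro h0
    rw [h0] at hd
    apply hdisc
    have h1 : ((4 * a ^ 3 + 27 * b ^ 2 : ℤ) : F) = 0 := by linear_combination hd
    exact_mod_cast h1
  have h12 : t1 ≠ t2 := fun h => hd0 (by rw [h]; ring)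
  have h13 : t1 ≠ t3 := fun h => hd0 (by rw [h]; ring)
  have h23 : t2 ≠ t3 := fun h => hd0 (by rw [h]; ring)
  have hmon : (X ^ 3 + C (a : ℚ) * X + C (b : ℚ) : ℚ[X]).Monic := by monicity!
  have hmin : ∀ t : F, (t = t1 ∨ t = t2 ∨ t = t3) →
      X ^ 3 + C (a : ℚ) * X + C (b : ℚ) = minpoly ℚ t := by
    intro t ht
    refine minpoly.eq_of_irreducible_of_monic hirr ?_ hmon
    simp only [map_add, map_mul, map_pow, aeval_X, aeval_C, map_intCast]
    exact (hroot t).1 ht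
  obtain ⟨Φ, hΦ1, hΦ2⟩ := cycle4 (L := F) h12 h13 h23 (fun g t ht => by
      rw [hroot] at ht ⊢
      have h1 := congrArg g ht
      rw [map_zero, map_add, map_add, map_mul, map_pow, map_intCast, map_intCast] at h1
      exact h1) ((hmin t1 (by tauto)).symm.trans (hmin t2 (by tauto)))
    ((hmin t1 (by tauto)).symm.trans (hmin t3 (by tauto)))
  -- the bad primes
  set B : ℤ := 2 * (∏ q ∈ S, (q : ℤ)) * (4 * a ^ 3 + 27 * b ^ 2) with hB
  have hB0 : B ≠ 0 := by
    refine mul_ne_zero (mul_ne_zero two_ne_zero ?_) hdisc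
    rw [Finset.prod_ne_zero_iff]
    intro q hq
    exact_mod_cast (hS q hq).1.ne_zero
  have hfin : {v : HeightOneSpectrum (𝓞 ℚ) | ((B : ℤ) : 𝓞 ℚ) ∈ v.asIdeal}.Finite := by
    have h0 : ((B : ℤ) : 𝓞 ℚ) ≠ 0 := by exact_mod_cast hB0
    have h1 : Ideal.span {((B : ℤ) : 𝓞 ℚ)} ≠ ⊥ := by
      rwa [Ne, Ideal.span_singleton_eq_bot]
    refine (Ideal.finite_factors h1).subset ?_
    intro v hv
    show v.asIdeal ∣ _
    rw [Ideal.dvd_iff_le, Ideal.span_singleton_le_iff_mem]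
    exact hv
  obtain ⟨c, hc, h1⟩ := Pool.Agent.K3h73.RS.t_CHEB ℚ F Φ hfin.toFinset
  refine ⟨c, hc, ?_⟩
  filter_upwards [h1] with Y hY
  refine hY.trans ?_
  set A : Set ℕ := {l : ℕ | (l.Prime ∧ l % 8 = 1 ∧ (∀ z : ℤ, ¬ (l : ℤ) ∣ z ^ 3 + a * z + b) ∧
        ∀ q ∈ S, IsSquare (l : ZMod q)) ∧ l ≤ Y} with hA
  have hfinA : A.Finite := (Set.finite_Iic Y).subset fun l hl => hl.2
  have := hfinA.to_subtype
  have hcard : (Nat.card A : ℝ) = (A.ncard : ℝ) := by rw [Nat.card_coe_set_eq]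
  rw [← hcard]
  have key : ∀ v : HeightOneSpectrum (𝓞 ℚ), (v ∉ hfin.toFinset ∧
      ∃ P : HeightOneSpectrum (𝓞 F), Pool.Agent.K3h30.RS.Above {v} P ∧
        ∀ x : 𝓞 F, P.valuation F (Φ (x : F) - (x : F) ^ (Ideal.absNorm v.asIdeal)) < 1) →
      Ideal.absNorm v.asIdeal ≤ Y → natGenerator v ∈ A := by
    rintro v ⟨hv, P, hP, hval⟩ hn
    rw [Set.Finite.mem_toFinset] at hv
    have hv' : ((B : ℤ) : 𝓞 ℚ) ∉ v.asIdeal := hv
    rw [absNorm_eq] at hval hn
    set l := natGenerator v with hl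
    have hlp : l.Prime := prime_natGenerator v
    haveI : Fact l.Prime := ⟨hlp⟩
    rw [mem_iff, ← hl] at hv'
    have hl2 : l ≠ 2 := by
      intro h4
      apply hv'
      rw [h4]
      exact ⟨(∏ q ∈ S, (q : ℤ)) * (4 * a ^ 3 + 27 * b ^ 2), by rw [hB]; push_cast; ring⟩
    have hld : ¬ (l : ℤ) ∣ 4 * a ^ 3 + 27 * b ^ 2 := fun h => hv' (h.mul_left _)
    have hlS : ∀ q ∈ S, ¬ (l : ℤ) ∣ (q : ℤ) := fun q hq h =>
      hv' (((h.trans (Finset.dvd_prod_of_mem _ hq)).mul_left _).mul_right _)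
    -- the prime `P`
    obtain ⟨v', hv'', hPv⟩ := hP
    rw [Set.mem_singleton_iff] at hv''
    subst hv''
    have hPn : ∀ n : ℤ, ((n : ℤ) : 𝓞 F) ∈ P.asIdeal ↔ (l : ℤ) ∣ n := by
      intro n
      rw [hl, ← mem_iff, ← hPv, Ideal.mem_comap, map_intCast]
    have hfr : ∀ x y : 𝓞 F, (y : F) = Φ (x : F) → y - x ^ l ∈ P.asIdeal := by
      intro x y hxy
      have h3 := hval x
      rw [← hxy] at h3
      have h4 : (y : F) - (x : F) ^ l = algebraMap (𝓞 F) F (y - x ^ l) := by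
        rw [map_sub, map_pow]
      rw [h4, HeightOneSpectrum.valuation_lt_one_iff_mem] at h3
      exact h3
    have hsq' : ∀ d ∈ insert (-1 : ℤ) (insert (2 : ℤ) (S.image fun q : ℕ => (q : ℤ))),
        ¬ (l : ℤ) ∣ d → IsSquare ((d : ℤ) : ZMod l) := by
      intro d hd hld
      obtain ⟨s, hs⟩ := hsq d hd
      obtain ⟨s', hs', hs2⟩ := int_of_sq hs
      refine euler hl2 P hPn hs2 hld (hfr s' s' ?_)
      rw [hs', hΦ2 s d hs]
    have hm1 : IsSquare (-1 : ZMod l) := by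
      have h4 := hsq' (-1) (Finset.mem_insert_self _ _) (by
        rw [Int.dvd_neg]
        intro h
        have := Int.le_of_dvd one_pos h
        have := hlp.two_le
        omega)
      push_cast at h4
      exact h4
    have h2s : IsSquare (2 : ZMod l) := by
      have h4 := hsq' 2 (Finset.mem_insert_of_mem (Finset.mem_insert_self _ _)) (by
        intro h
        have := Int.le_of_dvd two_pos h
        have := hlp.two_le
        omega)
      push_cast at h4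
      exact h4
    have hodd : l % 2 = 1 := Nat.odd_iff.1 (hlp.odd_of_ne_two hl2)
    have hl4 : l % 4 = 1 := by
      rw [ZMod.exists_sq_eq_neg_one_iff] at hm1
      omega
    have hl8 : l % 8 = 1 := by
      rw [ZMod.exists_sq_eq_two_iff hl2] at h2s
      omega
    refine ⟨⟨hlp, hl8, ?_, ?_⟩, hn⟩
    · -- irreducible
      intro z hz
      have hzF : (((z ^ 3 + a * z + b : ℤ)) : 𝓞 F) ∈ P.asIdeal := (hPn _).2 hz
      have hint : ∀ t : F, (t = t1 ∨ t = t2 ∨ t = t3) → IsIntegral ℤ t := by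
        intro t ht
        refine ⟨X ^ 3 + C a * X + C b, by monicity!, ?_⟩
        rw [eval₂_add, eval₂_add, eval₂_mul, eval₂_pow, eval₂_X, eval₂_C, eval₂_C, eq_intCast,
          eq_intCast]
        exact (hroot t).1 ht
      obtain ⟨u1, hu1⟩ : ∃ u : 𝓞 F, (u : F) = t1 := ⟨⟨t1, hint t1 (by tauto)⟩, rfl⟩
      obtain ⟨u2, hu2⟩ : ∃ u : 𝓞 F, (u : F) = t2 := ⟨⟨t2, hint t2 (by tauto)⟩, rfl⟩
      obtain ⟨u3, hu3⟩ : ∃ u : 𝓞 F, (u : F) = t3 := ⟨⟨t3, hint t3 (by tauto)⟩, rfl⟩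
      have hdP : (u1 - u2) * (u1 - u3) * (u2 - u3) ∉ P.asIdeal := by
        intro h
        have h5 : ((u1 - u2) * (u1 - u3) * (u2 - u3)) ^ 2 = ((-(4 * a ^ 3 + 27 * b ^ 2) : ℤ) : 𝓞 F) := by
          apply RingOfIntegers.ext
          have e1 : ((((u1 - u2) * (u1 - u3) * (u2 - u3)) ^ 2 : 𝓞 F) : F) =
              (((u1 : F) - u2) * ((u1 : F) - u3) * ((u2 : F) - u3)) ^ 2 := rfl
          have e2 : (((-(4 * a ^ 3 + 27 * b ^ 2) : ℤ) : 𝓞 F) : F) =
              ((-(4 * a ^ 3 + 27 * b ^ 2) : ℤ) : F) := map_intCast (algebraMap (𝓞 F) F) _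
          rw [e1, e2, hu1, hu2, hu3, hd]
          push_cast
          ring
        have h6 : ((-(4 * a ^ 3 + 27 * b ^ 2) : ℤ) : 𝓞 F) ∈ P.asIdeal := by
          rw [← h5]
          exact Ideal.pow_mem_of_mem _ h 2 (by norm_num)
        rw [hPn, Int.dvd_neg] at h6
        exact hld h6
      have hprod : (((z : ℤ) : 𝓞 F) - u1) * (((z : ℤ) : 𝓞 F) - u2) * (((z : ℤ) : 𝓞 F) - u3) ∈
          P.asIdeal := by
        have h5 : (((z : ℤ) : 𝓞 F) - u1) * (((z : ℤ) : 𝓞 F) - u2) * (((z : ℤ) : 𝓞 F) - u3) =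
            (((z ^ 3 + a * z + b : ℤ)) : 𝓞 F) := by
          apply RingOfIntegers.ext
          have e1 : (((((z : ℤ) : 𝓞 F) - u1) * (((z : ℤ) : 𝓞 F) - u2) *
              (((z : ℤ) : 𝓞 F) - u3) : 𝓞 F) : F) =
              (((((z : ℤ) : 𝓞 F) : F) - u1) * ((((z : ℤ) : 𝓞 F) : F) - u2) *
                ((((z : ℤ) : 𝓞 F) : F) - u3)) := rfl
          have e2 : (((z ^ 3 + a * z + b : ℤ) : 𝓞 F) : F) = ((z ^ 3 + a * z + b : ℤ) : F) :=
            map_intCast (algebraMap (𝓞 F) F) _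
          have e3 : (((z : ℤ) : 𝓞 F) : F) = ((z : ℤ) : F) := map_intCast (algebraMap (𝓞 F) F) _
          rw [e1, e2, e3, hu1, hu2, hu3, hfac]
          push_cast
          ring
        rw [h5]
        exact hzF
      -- one factor
      have fin : ∀ u u' : 𝓞 F, (u' : F) = Φ (u : F) → ((z : ℤ) : 𝓞 F) - u ∈ P.asIdeal →
          u' - u ∈ P.asIdeal := by
        intro u u' huu' hu
        have h5 := hfr u u' huu'
        have h6 : ((z : ℤ) : 𝓞 F) ^ l - u ^ l ∈ P.asIdeal :=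
          Ideal.mem_of_dvd _ (sub_dvd_pow_sub_pow _ _ l) hu
        have h7 : ((z ^ l - z : ℤ) : 𝓞 F) ∈ P.asIdeal := by
          rw [hPn, ← ZMod.intCast_zmod_eq_zero_iff_dvd]
          push_cast
          rw [ZMod.pow_card, sub_self]
        push_cast at h7
        have e : u' - u = (u' - u ^ l) - (((z : ℤ) : 𝓞 F) ^ l - u ^ l) +
            (((z : ℤ) : 𝓞 F) ^ l - ((z : ℤ) : 𝓞 F)) + (((z : ℤ) : 𝓞 F) - u) := by ring
        rw [e]
        exact P.asIdeal.add_mem (P.asIdeal.add_mem (P.asIdeal.sub_mem h5 h6) h7) hu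
      have hdist : ∀ u u' : 𝓞 F, ((u : F) = t1 ∨ (u : F) = t2 ∨ (u : F) = t3) →
          ((u' : F) = t1 ∨ (u' : F) = t2 ∨ (u' : F) = t3) → (u' : F) ≠ u → u' - u ∉ P.asIdeal := by
        have m12 : u1 - u2 ∉ P.asIdeal := fun h => hdP
          (Ideal.mul_mem_right _ _ (Ideal.mul_mem_right _ _ h))
        have m13 : u1 - u3 ∉ P.asIdeal := fun h => hdP
          (Ideal.mul_mem_right _ _ (Ideal.mul_mem_left _ _ h))
        have m23 : u2 - u3 ∉ P.asIdeal := fun h => hdP (Ideal.mul_mem_left _ _ h)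
        have sw : ∀ x y : 𝓞 F, x - y ∉ P.asIdeal → y - x ∉ P.asIdeal := by
          intro x y h h'
          apply h
          have : x - y = -(y - x) := by ring
          rw [this]
          exact P.asIdeal.neg_mem h'
        intro u u' hu hu' hne
        have cs : ∀ w : 𝓞 F, ((w : F) = t1 ∨ (w : F) = t2 ∨ (w : F) = t3) → w = u1 ∨ w = u2 ∨ w = u3 := by
          rintro w (h | h | h)
          · exact Or.inl (RingOfIntegers.ext (h.trans hu1.symm))
          · exact Or.inr (Or.inl (RingOfIntegers.ext (h.trans hu2.symm)))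
          · exact Or.inr (Or.inr (RingOfIntegers.ext (h.trans hu3.symm)))
        rcases cs u hu with rfl | rfl | rfl <;> rcases cs u' hu' with rfl | rfl | rfl
        · exact absurd rfl hne
        · exact sw _ _ m12
        · exact sw _ _ m13
        · exact m12
        · exact absurd rfl hne
        · exact sw _ _ m23
        · exact m13
        · exact m23
        · exact absurd rfl hne
      have done : ∀ u : 𝓞 F, ((u : F) = t1 ∨ (u : F) = t2 ∨ (u : F) = t3) →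
          ((z : ℤ) : 𝓞 F) - u ∉ P.asIdeal := by
        intro u hu hzu
        obtain ⟨h5, h6⟩ := hΦ1 (u : F) hu
        obtain ⟨u', hu'⟩ : ∃ w : 𝓞 F, (w : F) = Φ (u : F) := ⟨⟨Φ (u : F), hint _ h5⟩, rfl⟩
        refine hdist u u' hu (by rw [hu']; exact h5) (by rw [hu']; exact h6) (fin u u' hu' hzu)
      rcases P.isPrime.mem_or_mem hprod with h5 | h5
      · rcases P.isPrime.mem_or_mem h5 with h6 | h6
        · exact done u1 (Or.inl hu1) h6
        · exact done u2 (Or.inr (Or.inl hu2)) h6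
      · exact done u3 (Or.inr (Or.inr hu3)) h5
    · intro q hq
      haveI : Fact q.Prime := ⟨(hS q hq).1⟩
      have h6 := hsq' (q : ℤ) (Finset.mem_insert_of_mem (Finset.mem_insert_of_mem
        (Finset.mem_image_of_mem _ hq))) (hlS q hq)
      rw [ZMod.exists_sq_eq_prime_iff_of_mod_four_eq_one (hS q hq).2 hl2]
      push_cast at h6
      exact h6
  exact_mod_cast Nat.card_le_card_of_injective
    (fun v : {v : HeightOneSpectrum (𝓞 ℚ) // (v ∉ hfin.toFinset ∧
      ∃ P : HeightOneSpectrum (𝓞 F), Pool.Agent.K3h30.RS.Above {v} P ∧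
        ∀ x : 𝓞 F, P.valuation F (Φ (x : F) - (x : F) ^ (Ideal.absNorm v.asIdeal)) < 1) ∧
      Ideal.absNorm v.asIdeal ≤ Y} => (⟨natGenerator v.1, key v.1 v.2.1 v.2.2⟩ : A))
    (fun v w h => by
      apply Subtype.ext
      have h4 : natGenerator v.1 = natGenerator w.1 := congrArg Subtype.val h
      exact (primesEquiv (R := 𝓞 ℚ)).injective (Subtype.ext h4))

open Filter in
/-- **Many primes.** -/
theorem primes {a b : ℤ} (hirr : Irreducible (X ^ 3 + C (a : ℚ) * X + C (b : ℚ) : ℚ[X]))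
    (hdisc : 4 * a ^ 3 + 27 * b ^ 2 ≠ 0) {S : Finset ℕ} (hS : ∀ q ∈ S, q.Prime ∧ q % 4 = 1) :
    ∃ c : ℝ, 0 < c ∧ ∀ᶠ X : ℕ in atTop, c * (Nat.primeCounting X : ℝ) ≤
      (Set.ncard {l : ℕ | (l.Prime ∧ l % 8 = 1 ∧ (∀ z : ℤ, ¬ (l : ℤ) ∣ z ^ 3 + a * z + b) ∧
        ∀ q ∈ S, IsSquare (l : ZMod q)) ∧ l ≤ X} : ℝ) := by
  obtain ⟨hsq, t1, t2, t3, k1, k2, k3⟩ := roots a b S
  haveI : @Normal ℚ (gpol a b S).SplittingField _ _ DivisionRing.toRatAlgebra := normal_gpol a b S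
  exact primesF (gpol a b S).SplittingField hirr hdisc hS hsq k1 k2 k3

end Pool.Agent.Helper93.Pf
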